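import Pool.Agent.R240.LL4

/-! # The local law for the superattracting parameters of exact period -/

set_option autoImplicit false

namespace Pool.Agent.U334.LW

open Complex Metric Set Filter Topology MeasureTheory N62a1eb23
open Pool.Agent.H713R2 (IsExteriorMap)
open Pool.Agent.Y736.HD (Ang)
open Pool.Agent.R240.LL

variable {d : ℕ}

/-- the parameters in the disc for which `0` has period dividing `n` -/
def Cn (d n : ℕ) (c₀ : ℂ) (r : ℝ) : Set ℂ :=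
  {c | ‖c - c₀‖ < r ∧ (fun z : ℂ => z ^ d + c)^[n] 0 = 0}

/-- exact period `n` -/
def Ex (d n : ℕ) (c₀ : ℂ) (r : ℝ) : Set ℂ :=
  {c | ‖c - c₀‖ < r ∧ (fun z : ℂ => z ^ d + c)^[n] 0 = 0 ∧
    ∀ m : ℕ, 0 < m → m < n → (fun z : ℂ => z ^ d + c)^[m] 0 ≠ 0}

theorem ncard_eq (hd : 2 ≤ d) (N : ℕ) (c₀ : ℂ) (r : ℝ) : (Cn d (N + 1) c₀ r).ncard = nz d N c₀ r := by
  unfold nz Cn
  rw [← Set.ncard_coe_finset]
  congr 1
  ext c
  rw [Finset.mem_coe, Finset.mem_filter, mem_ZZ hd]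
  exact and_comm

theorem finite_Cn (hd : 2 ≤ d) {n : ℕ} (hn : 1 ≤ n) (c₀ : ℂ) (r : ℝ) : (Cn d n c₀ r).Finite := by
  obtain ⟨N, rfl⟩ : ∃ N, n = N + 1 := Nat.exists_eq_add_of_le' hn
  exact (ZZ d N).finite_toSet.subset fun a ha => (mem_ZZ hd).2 ha.2

theorem ncard_le (hd : 2 ≤ d) {n : ℕ} (hn : 1 ≤ n) (c₀ : ℂ) (r : ℝ) :
    (Cn d n c₀ r).ncard ≤ d ^ (n - 1) := by
  obtain ⟨N, rfl⟩ : ∃ N, n = N + 1 := Nat.exists_eq_add_of_le' hn
  have h1 : (Cn d (N + 1) c₀ r).ncard ≤ (ZZ d N).card := by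
    rw [← Set.ncard_coe_finset]
    exact Set.ncard_le_ncard (fun a ha => (mem_ZZ hd).2 ha.2) (ZZ d N).finite_toSet
  exact h1.trans (by rw [Nat.add_sub_cancel]; exact card_ZZ hd N)

theorem Ex_sub (n : ℕ) (c₀ : ℂ) (r : ℝ) : Ex d n c₀ r ⊆ Cn d n c₀ r := fun _ h => ⟨h.1, h.2.1⟩

/-- the least period divides -/
theorem exists_div (c : ℂ) {n : ℕ} (hn : 1 ≤ n) (h : (fun z : ℂ => z ^ d + c)^[n] 0 = 0)
    (h2 : ∃ m : ℕ, 0 < m ∧ m < n ∧ (fun z : ℂ => z ^ d + c)^[m] 0 = 0) :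
    ∃ m : ℕ, 1 ≤ m ∧ m ≤ n / 2 ∧ (fun z : ℂ => z ^ d + c)^[m] 0 = 0 := by
  have hp : Function.IsPeriodicPt (fun z : ℂ => z ^ d + c) n 0 := h
  obtain ⟨m, hm0, hmn, hm⟩ := h2
  have hpm : Function.IsPeriodicPt (fun z : ℂ => z ^ d + c) m 0 := hm
  obtain ⟨k, hk⟩ := hp.minimalPeriod_dvd
  have h3 : Function.minimalPeriod (fun z : ℂ => z ^ d + c) 0 ≤ m :=
    hpm.minimalPeriod_le hm0
  have h4 : 0 < Function.minimalPeriod (fun z : ℂ => z ^ d + c) 0 :=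
    hpm.minimalPeriod_pos hm0
  refine ⟨Function.minimalPeriod (fun z : ℂ => z ^ d + c) 0, h4, ?_,
    Function.isPeriodicPt_minimalPeriod _ _⟩
  obtain ⟨q, hq⟩ : ∃ q, q = Function.minimalPeriod (fun z : ℂ => z ^ d + c) 0 := ⟨_, rfl⟩
  rw [← hq] at hk h3 h4 ⊢
  rw [Nat.le_div_iff_mul_le (by norm_num)]
  have hk2 : 2 ≤ k := by
    by_contra hcon
    have : k = 0 ∨ k = 1 := by omega
    rcases this with h5 | h5
    · subst h5
      omega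
    · subst h5
      omega
  calc q * 2 ≤ q * k := Nat.mul_le_mul_left q hk2
    _ = n := hk.symm

theorem geom_le (hd : 2 ≤ d) (M : ℕ) : ∑ m ∈ Finset.range M, d ^ m ≤ d ^ M := by
  induction M with
  | zero => simp
  | succ M ih =>
    rw [Finset.sum_range_succ, pow_succ]
    have : d ^ M * 2 ≤ d ^ M * d := Nat.mul_le_mul_left _ hd
    omega

theorem diff_le (hd : 2 ≤ d) {n : ℕ} (hn : 1 ≤ n) (c₀ : ℂ) (r : ℝ) :
    (Cn d n c₀ r).ncard ≤ (Ex d n c₀ r).ncard + d ^ (n / 2) := by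
  classical
  have h1 : Cn d n c₀ r ⊆ Ex d n c₀ r ∪ ⋃ m ∈ Finset.range (n / 2), Cn d (m + 1) c₀ r := by
    intro c hc
    by_cases h2 : ∃ m : ℕ, 0 < m ∧ m < n ∧ (fun z : ℂ => z ^ d + c)^[m] 0 = 0
    · obtain ⟨m, hm1, hm2, hm3⟩ := exists_div c hn hc.2 h2
      refine Or.inr (mem_iUnion₂.2 ⟨m - 1, Finset.mem_range.2 (by omega), hc.1, ?_⟩)
      rw [Nat.sub_add_cancel hm1]
      exact hm3
    · refine Or.inl ⟨hc.1, hc.2, fun m hm0 hmn h3 => h2 ⟨m, hm0, hmn, h3⟩⟩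
  have hfin : (⋃ m ∈ Finset.range (n / 2), Cn d (m + 1) c₀ r).Finite :=
    Set.Finite.biUnion (Finset.finite_toSet _) fun m _ => finite_Cn hd (by omega) c₀ r
  have hfinE : (Ex d n c₀ r).Finite := (finite_Cn hd hn c₀ r).subset (Ex_sub n c₀ r)
  have h2 := Set.ncard_le_ncard h1 (hfinE.union hfin)
  have h3 := Set.ncard_union_le (Ex d n c₀ r) (⋃ m ∈ Finset.range (n / 2), Cn d (m + 1) c₀ r)
  have h4 : (⋃ m ∈ Finset.range (n / 2), Cn d (m + 1) c₀ r).ncard ≤ d ^ (n / 2) := by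
    refine le_trans ?_ (geom_le hd (n / 2))
    refine (Finset.set_ncard_biUnion_le _ _).trans ?_
    exact Finset.sum_le_sum fun m _ => by
      have := ncard_le hd (show 1 ≤ m + 1 by omega) c₀ r
      rwa [Nat.add_sub_cancel] at this
  omega

/-- **The local law.** -/
theorem law' (hd : 2 ≤ d) {ψ : ℂ → ℂ} (hψ : IsExteriorMap (multibrotSet d) ψ) {c₀ : ℂ}
    (hc₀ : c₀ ∈ multibrotSet d) {n : ℕ} (hn : 1 ≤ n) {r δ : ℝ} (hr0 : 0 < r) (hδ0 : 0 < δ)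
    (hδ1 : δ ≤ 1) :
    ((Cn d n c₀ r).ncard : ℝ) ≤
      d ^ (n - 1) * ((volume (Ang ψ c₀ ((1 + δ) * r))).toReal / (2 * Real.pi)) +
        KL * n * Real.log d / δ ∧
    d ^ (n - 1) * ((volume (Ang ψ c₀ r)).toReal / (2 * Real.pi)) ≤
      (Cn d n c₀ ((1 + δ) * r)).ncard + KL * n * Real.log d / δ := by
  obtain ⟨N, rfl⟩ : ∃ N, n = N + 1 := Nat.exists_eq_add_of_le' hn
  have h := law hd hψ hc₀ N hr0 hδ0 hδ1
  rw [ncard_eq hd, ncard_eq hd, Nat.add_sub_cancel]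
  exact h

/-- exact periods -/
theorem law_exact (hd : 2 ≤ d) {ψ : ℂ → ℂ} (hψ : IsExteriorMap (multibrotSet d) ψ) {c₀ : ℂ}
    (hc₀ : c₀ ∈ multibrotSet d) {n : ℕ} (hn : 1 ≤ n) {r δ : ℝ} (hr0 : 0 < r) (hδ0 : 0 < δ)
    (hδ1 : δ ≤ 1) :
    d ^ (n - 1) * ((volume (Ang ψ c₀ r)).toReal / (2 * Real.pi)) ≤
      (Ex d n c₀ ((1 + δ) * r)).ncard + d ^ (n / 2) + KL * n * Real.log d / δ := by
  have h1 := (law' hd hψ hc₀ hn hr0 hδ0 hδ1).2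
  have h2 : ((Cn d n c₀ ((1 + δ) * r)).ncard : ℝ) ≤
      (Ex d n c₀ ((1 + δ) * r)).ncard + (d : ℝ) ^ (n / 2) := by
    exact_mod_cast diff_le hd hn c₀ ((1 + δ) * r)
  linarith

/-- `n log d ≤ 4 d ^ (n / 2)`, with the real exponent -/
theorem nlog_le (hd : 2 ≤ d) (n : ℕ) : (n : ℝ) * Real.log d ≤ 2 * (d : ℝ) ^ ((n : ℝ) / 2) := by
  have hd0 : (0 : ℝ) < d := by exact_mod_cast (by omega : 0 < d)
  rw [Real.rpow_def_of_pos hd0]
  have h := Real.add_one_le_exp (Real.log d * ((n : ℝ) / 2))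
  linarith

/-- a superattracting parameter of exact period `n` -/
theorem exists_exact (hd : 2 ≤ d) {ψ : ℂ → ℂ} (hψ : IsExteriorMap (multibrotSet d) ψ) {c₀ : ℂ}
    (hc₀ : c₀ ∈ multibrotSet d) {n : ℕ} (hn : 1 ≤ n) {r : ℝ} (hr0 : 0 < r)
    (h : (1 + 2 * KL) * (d : ℝ) ^ (1 - (n : ℝ) / 2) <
      (volume (Ang ψ c₀ (r / 2))).toReal / (2 * Real.pi)) :
    (Ex d n c₀ r).Nonempty := by
  have hd0 : (0 : ℝ) < d := by exact_mod_cast (by omega : 0 < d)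
  have hd1 : (1 : ℝ) ≤ d := by exact_mod_cast (by omega : 1 ≤ d)
  by_contra hcon
  rw [Set.not_nonempty_iff_eq_empty] at hcon
  have h1 := law_exact hd hψ hc₀ hn (r := r / 2) (δ := 1) (by linarith) one_pos le_rfl
  rw [show (1 + 1) * (r / 2) = r by ring, hcon, Set.ncard_empty, Nat.cast_zero, zero_add,
    div_one] at h1
  have h2 : (d : ℝ) ^ (n / 2) ≤ (d : ℝ) ^ ((n : ℝ) / 2) := by
    rw [← Real.rpow_natCast]
    apply Real.rpow_le_rpow_of_exponent_le hd1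
    exact Nat.cast_div_le
  have h3 : KL * n * Real.log d ≤ 2 * KL * (d : ℝ) ^ ((n : ℝ) / 2) := by
    have := mul_le_mul_of_nonneg_left (nlog_le hd n) KL_pos.le
    linarith
  have h4 : (d : ℝ) ^ (n - 1) * ((1 + 2 * KL) * (d : ℝ) ^ (1 - (n : ℝ) / 2)) =
      (1 + 2 * KL) * (d : ℝ) ^ ((n : ℝ) / 2) := by
    have h5 : (d : ℝ) ^ (n - 1) = (d : ℝ) ^ ((n : ℝ) - 1) := by
      rw [← Real.rpow_natCast, Nat.cast_sub hn, Nat.cast_one]
    have h6 : (d : ℝ) ^ ((n : ℝ) - 1) * (d : ℝ) ^ (1 - (n : ℝ) / 2) = (d : ℝ) ^ ((n : ℝ) / 2) := by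
      rw [← Real.rpow_add hd0]
      congr 1
      ring
    rw [h5, mul_left_comm, h6]
  have h5 : (0 : ℝ) < (d : ℝ) ^ (n - 1) := by positivity
  have h6 := mul_lt_mul_of_pos_left h h5
  rw [h4] at h6
  linarith

end Pool.Agent.U334.LW
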