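import Pool.Agent.Y736.HG7
import Pool.Agent.H713R2.Ext3

/-! # The harmonic measure of the discs about the boundary points is positive -/

set_option autoImplicit false

namespace Pool.Agent.U334.LW

open Complex Metric Set Filter Topology MeasureTheory Pool.Agent.H712R2 Pool.Agent.H713R2
open N62a1eb23
open Real (posLog circleAverage)
open Pool.Agent.Y736.HD (cm cm_apply cm_eq avg_eq Ang Ang_sub vol_Ang_ne sn sn_pos sn_lt sn_lim
  sn_inv_lim norm_pt isOpen_ext integrable_cont UU UU_nonneg lower_II avg_mem avg_ext)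
open Pool.Agent.Y736.HG (cont_pt psi_ne cont_U mean_le avg_psi ae_land green_cont)

variable {d : ℕ} {β ψ : ℂ → ℂ}

/-- Lower bound of the harmonic measure by circle averages. -/
theorem le_vol_of (hβ : IsBeta d β) (hψ : IsExteriorMap (multibrotSet d) ψ)
    (hae : ∀ᵐ θ : ℝ, ∃ ζ : ℂ, Tendsto (fun ρ : ℝ => ψ (ρ * exp (θ * I))) (𝓝[>] 1) (𝓝 ζ))
    {c₀ : ℂ} (hc₀ : c₀ ∈ multibrotSet d)
    {ρ' ρ r S T : ℝ} (hρ' : 0 < ρ') (hρ : ρ' < ρ) (hr : ρ < r) (hS0 : 0 ≤ S)
    (hS : ∀ w : ℂ, 1 < ‖w‖ → ‖ψ w - c₀‖ ≤ ρ' → Real.log ‖w‖ ≤ S)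
    (hT : ∀ n, T + Real.log (sn n) ≤ circleAverage (UU β c₀ ρ) 0 (sn n)) :
    T - S ≤ Real.log (ρ / ρ') * (volume (Ang ψ c₀ r)).toReal / (2 * Real.pi) := by
  have hpi := Real.pi_pos
  have hρ0 : 0 < ρ := hρ'.trans hρ
  obtain ⟨A, hA⟩ : ∃ A, A = Real.log (ρ / ρ') := ⟨_, rfl⟩
  have hA0 : 0 < A := by
    rw [hA]
    apply Real.log_pos
    rwa [lt_div_iff₀ hρ', one_mul]
  rw [← hA]
  obtain ⟨D, hD⟩ : ∃ D : ℕ → Set ℝ, D = fun n =>
      {θ : ℝ | ‖ψ (((sn n)⁻¹ : ℝ) * exp (θ * I)) - c₀‖ < ρ} := ⟨_, rfl⟩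
  have hDm : ∀ n, MeasurableSet (D n) := by
    intro n
    rw [hD]
    exact (isOpen_lt ((cont_pt hψ (sn_pos n) (sn_lt n)).sub continuous_const).norm
      continuous_const).measurableSet
  -- each level
  have hlev : ∀ n, T + Real.log (sn n) ≤ A * cm.real (D n) + S := by
    intro n
    have h1 := hT n
    have h2 := mean_le hβ hψ hc₀ hρ' (sn_pos n) (sn_lt n) hS0 hS
    rw [avg_psi hβ hψ c₀ _ (sn_pos n) (sn_lt n)] at h1 h2
    refine h1.trans (le_trans ?_ (add_le_add le_rfl h2))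
    have h3 : Integrable ((D n).indicator fun _ => (1 : ℝ)) cm :=
      (integrable_const _).indicator (hDm n)
    have h4 : cm.real (D n) = ∫ θ, (D n).indicator (fun _ => (1 : ℝ)) θ ∂cm := by
      rw [integral_indicator (hDm n), setIntegral_const, smul_eq_mul, mul_one]
    rw [h4, ← integral_const_mul, ← integral_add (h3.const_mul A)
      (integrable_cont (cont_U hψ hc₀ ρ' (sn_pos n) (sn_lt n)))]
    apply integral_mono (integrable_cont (cont_U hψ hc₀ ρ (sn_pos n) (sn_lt n)))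
      ((h3.const_mul A).add (integrable_cont (cont_U hψ hc₀ ρ' (sn_pos n) (sn_lt n))))
    intro θ
    show posLog (ρ / ‖ψ (((sn n)⁻¹ : ℝ) * exp (θ * I)) - c₀‖) ≤
      A * (D n).indicator (fun _ => (1 : ℝ)) θ +
        posLog (ρ' / ‖ψ (((sn n)⁻¹ : ℝ) * exp (θ * I)) - c₀‖)
    obtain ⟨t, ht⟩ : ∃ t, t = ‖ψ (((sn n)⁻¹ : ℝ) * exp (θ * I)) - c₀‖ := ⟨_, rfl⟩
    have ht0 : 0 < t := by
      rw [ht]
      exact norm_pos_iff.2 (sub_ne_zero.2 (psi_ne hψ hc₀ (norm_pt (sn_pos n) (sn_lt n) θ)))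
    by_cases hθ : θ ∈ D n
    · rw [indicator_of_mem hθ, mul_one, ← ht]
      have h5 : t < ρ := by
        rw [hD] at hθ
        rw [ht]
        exact hθ
      have h6 : 1 ≤ |ρ / t| := by
        rw [abs_of_pos (by positivity), le_div_iff₀ ht0]
        linarith
      rw [Real.posLog_eq_log h6]
      have h7 : Real.log (ρ / t) = A + Real.log (ρ' / t) := by
        rw [hA, ← Real.log_mul (by positivity) (by positivity)]
        congr 1
        field_simp
      rw [h7]
      have : Real.log (ρ' / t) ≤ posLog (ρ' / t) := le_max_right _ _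
      linarith
    · rw [indicator_of_notMem hθ, mul_zero, zero_add, ← ht]
      have h5 : ρ ≤ t := by
        rw [hD] at hθ
        rw [ht]
        exact not_lt.1 hθ
      have h6 : posLog (ρ / t) = 0 := by
        rw [Real.posLog_eq_zero_iff, abs_of_pos (by positivity), div_le_one ht0]
        exact h5
      rw [h6]
      exact Real.posLog_nonneg
  -- the upper limit of the sets
  obtain ⟨E, hE⟩ : ∃ E : ℕ → Set ℝ, E = fun N => ⋃ n, D (N + n) := ⟨_, rfl⟩
  have hEm : ∀ N, MeasurableSet (E N) := by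
    intro N
    rw [hE]
    exact MeasurableSet.iUnion fun n => hDm _
  have hanti : Antitone E := by
    intro N N' h
    rw [hE]
    apply iUnion_subset
    intro n
    obtain ⟨k, rfl⟩ := Nat.exists_eq_add_of_le h
    rw [show N + k + n = N + (k + n) by ring]
    exact subset_iUnion (fun n => D (N + n)) (k + n)
  have hElow : ∀ N, (T - S) / A ≤ cm.real (E N) := by
    intro N
    have h1 : ∀ n, (T + Real.log (sn (N + n)) - S) / A ≤ cm.real (E N) := by
      intro n
      have h2 : cm.real (D (N + n)) ≤ cm.real (E N) := by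
        refine measureReal_mono ?_ (measure_ne_top _ _)
        rw [hE]
        exact subset_iUnion (fun n => D (N + n)) n
      rw [div_le_iff₀ hA0]
      have h3 := hlev (N + n)
      nlinarith
    have h2 : Tendsto (fun n => (T + Real.log (sn (N + n)) - S) / A) atTop
        (𝓝 ((T + Real.log 1 - S) / A)) := by
      have h3 : Tendsto (fun n => sn (N + n)) atTop (𝓝 1) := by
        have := sn_lim.comp (tendsto_add_atTop_nat N)
        refine this.congr fun n => ?_
        show sn (n + N) = sn (N + n)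
        rw [add_comm]
      have h4 := (Real.continuousAt_log one_ne_zero).tendsto.comp h3
      exact ((h4.const_add T).sub_const S).div_const A
    rw [Real.log_one, add_zero] at h2
    exact le_of_tendsto' h2 h1
  have hlim : (T - S) / A ≤ cm.real (⋂ N, E N) := by
    have h1 : Tendsto (fun N => cm (E N)) atTop (𝓝 (cm (⋂ N, E N))) :=
      tendsto_measure_iInter_atTop (fun N => (hEm N).nullMeasurableSet) hanti
        ⟨0, measure_ne_top _ _⟩
    have h2 : Tendsto (fun N => cm.real (E N)) atTop (𝓝 (cm.real (⋂ N, E N))) :=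
      (ENNReal.tendsto_toReal (measure_ne_top _ _)).comp h1
    exact ge_of_tendsto' h2 hElow
  -- almost every angle of the upper limit lands in the ball
  have hsub : volume ((⋂ N, E N) ∩ Ioc 0 (2 * Real.pi)) ≤ volume (Ang ψ c₀ r) := by
    apply measure_mono_ae
    filter_upwards [hae] with θ hθ hmem
    obtain ⟨hθ1, hθ2⟩ := hmem
    obtain ⟨ζ, hζ⟩ := hθ
    refine ⟨hθ2, ζ, ?_, hζ⟩
    rw [mem_ball, dist_eq_norm]
    refine lt_of_le_of_lt ?_ hr
    have h4 : Tendsto (fun n => ‖ψ (((sn n)⁻¹ : ℝ) * exp (θ * I)) - c₀‖) atTop (𝓝 ‖ζ - c₀‖) :=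
      ((hζ.comp sn_inv_lim).sub_const c₀).norm
    apply le_of_tendsto_of_frequently h4
    rw [frequently_atTop]
    intro N
    have h5 := mem_iInter.1 hθ1 N
    rw [hE] at h5
    obtain ⟨n, hn⟩ := mem_iUnion.1 h5
    refine ⟨N + n, Nat.le_add_right _ _, ?_⟩
    rw [hD] at hn
    exact le_of_lt hn
  have h1 : cm.real (⋂ N, E N) ≤ (2 * Real.pi)⁻¹ * (volume (Ang ψ c₀ r)).toReal := by
    unfold Measure.real
    rw [cm_eq, ENNReal.toReal_mul, ENNReal.toReal_ofReal (by positivity)]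
    gcongr
    exact vol_Ang_ne ψ c₀ r
  have h2 := hlim.trans h1
  rw [div_le_iff₀ hA0] at h2
  refine h2.trans (le_of_eq ?_)
  field_simp

/-- the exterior of the unit disc -/
theorem isPreconnected_ext1 : IsPreconnected {w : ℂ | 1 < ‖w‖} := by
  have h1 : {w : ℂ | 1 < ‖w‖} =
      (fun p : ℝ × ℝ => (p.1 : ℂ) * Complex.exp (p.2 * I)) '' (Ioi 1 ×ˢ univ) := by
    ext w
    constructor
    · intro hw
      exact ⟨(‖w‖, w.arg), ⟨hw, mem_univ _⟩, Complex.norm_mul_exp_arg_mul_I w⟩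
    · rintro ⟨⟨r, θ⟩, ⟨hr, _⟩, rfl⟩
      have hr' : (1 : ℝ) < r := hr
      show 1 < ‖(r : ℂ) * Complex.exp (θ * I)‖
      rw [norm_mul, Complex.norm_real, Real.norm_eq_abs, Complex.norm_exp_ofReal_mul_I, mul_one,
        abs_of_pos (by linarith)]
      exact hr'
  rw [h1]
  apply IsPreconnected.image
  · exact isPreconnected_Ioi.prod isPreconnected_univ
  · fun_prop

theorem isOpen_image (hψ : IsExteriorMap (multibrotSet d) ψ) {R : ℝ} (hR : 1 ≤ R) :
    IsOpen (ψ '' {w | R < ‖w‖}) := by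
  have ha : AnalyticOnNhd ℂ ψ {w | 1 < ‖w‖} := hψ.diff.analyticOnNhd isOpen_ext
  rcases ha.is_constant_or_isOpen isPreconnected_ext1 with ⟨v, hv⟩ | h
  · exfalso
    have h2 : (2 : ℂ) ∈ {w : ℂ | 1 < ‖w‖} := by
      show 1 < ‖(2 : ℂ)‖
      norm_num
    have h3 : (3 : ℂ) ∈ {w : ℂ | 1 < ‖w‖} := by
      show 1 < ‖(3 : ℂ)‖
      norm_num
    have := hψ.inj h2 h3 ((hv _ h2).trans (hv _ h3).symm)
    norm_num at this
  · refine h _ (fun w hw => ?_) (isOpen_lt continuous_const continuous_norm)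
    exact lt_of_le_of_lt hR hw

/-- Boundary points have positive harmonic measure nearby. -/
theorem vol_pos (hd2 : 2 ≤ d) (hψ : IsExteriorMap (multibrotSet d) ψ) {c₀ : ℂ}
    (hc₀ : c₀ ∈ frontier (multibrotSet d)) {r : ℝ} (hr : 0 < r) :
    0 < (volume (Ang ψ c₀ r)).toReal := by
  obtain ⟨β, hβ⟩ := exists_beta (d := d) hd2
  have hpi := Real.pi_pos
  have hMc : IsClosed (multibrotSet d) := (isCompact_multibrot (d := d) hd2).isClosed
  have hc : c₀ ∈ multibrotSet d := hMc.frontier_subset hc₀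
  obtain ⟨ρ, hρ⟩ : ∃ ρ, ρ = r / 2 := ⟨_, rfl⟩
  have hρ0 : 0 < ρ := by rw [hρ]; linarith
  have hle2 : ∀ c ∈ multibrotSet d, ‖c‖ ≤ 2 := by
    intro c hc
    have := (mem_multibrot_iff hd2 c).1 hc 1
    rw [P_succ, P_zero, zero_pow (by omega), zero_add] at this
    exact this
  -- a point of the circle outside of the Multibrot set
  have hpre : IsPreconnected (multibrotSet d)ᶜ := by
    rw [← hψ.image]
    exact isPreconnected_ext1.image ψ hψ.diff.continuousOn
  have h1 : ((multibrotSet d)ᶜ ∩ ball c₀ ρ).Nonempty := by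
    have h2 : c₀ ∈ closure (multibrotSet d)ᶜ := by
      rw [frontier_eq_closure_inter_closure] at hc₀
      exact hc₀.2
    obtain ⟨c, hc1, hc2⟩ := Metric.mem_closure_iff.1 h2 ρ hρ0
    exact ⟨c, hc1, by rwa [mem_ball, dist_comm]⟩
  have h2 : ((multibrotSet d)ᶜ ∩ (closedBall c₀ ρ)ᶜ).Nonempty := by
    have e : ‖((ρ + 5 : ℝ) : ℂ)‖ = ρ + 5 := by
      rw [Complex.norm_real, Real.norm_of_nonneg (by linarith)]
    refine ⟨c₀ + ((ρ + 5 : ℝ) : ℂ), fun h => ?_, ?_⟩
    · have h3 := hle2 _ h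
      have h4 := hle2 _ hc
      have h5 : ‖((ρ + 5 : ℝ) : ℂ)‖ ≤ ‖c₀ + ((ρ + 5 : ℝ) : ℂ)‖ + ‖c₀‖ := by
        have := norm_sub_le (c₀ + ((ρ + 5 : ℝ) : ℂ)) c₀
        rwa [add_sub_cancel_left] at this
      rw [e] at h5
      linarith
    · rw [mem_compl_iff, mem_closedBall, dist_eq_norm, add_sub_cancel_left, e]
      linarith
  obtain ⟨c₁, hc₁, hc₁s⟩ : ∃ c₁ ∈ (multibrotSet d)ᶜ, c₁ ∈ sphere c₀ ρ := by
    by_contra hcon
    push Not at hcon
    obtain ⟨x, -, hx1, hx2⟩ := hpre _ _ isOpen_ball isClosed_closedBall.isOpen_compl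
      (fun c hc => by
        rcases lt_trichotomy (dist c c₀) ρ with h3 | h3 | h3
        · exact Or.inl h3
        · exact absurd h3 (hcon c hc)
        · exact Or.inr fun h4 => absurd h3 (not_lt.2 (mem_closedBall.1 h4))) h1 h2
    exact hx2 (ball_subset_closedBall hx1)
  rw [← hψ.image] at hc₁
  obtain ⟨w₁, hw₁, rfl⟩ := hc₁
  have hw₁' : 1 < ‖w₁‖ := hw₁
  obtain ⟨ε, hε⟩ : ∃ ε, ε = Real.log ‖w₁‖ / 3 := ⟨_, rfl⟩
  have hL := Real.log_pos hw₁'
  have hε0 : 0 < ε := by rw [hε]; positivity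
  have hV := isOpen_image hψ (Real.one_le_exp (show 0 ≤ 2 * ε by positivity))
  have hV1 : ψ w₁ ∈ ψ '' {w | Real.exp (2 * ε) < ‖w‖} := by
    refine ⟨w₁, ?_, rfl⟩
    show Real.exp (2 * ε) < ‖w₁‖
    rw [← Real.lt_log_iff_exp_lt (by linarith)]
    linarith
  obtain ⟨η, hη, hηV⟩ := Metric.isOpen_iff.1 hV _ hV1
  obtain ⟨l, hl⟩ : ∃ l : ℂ → ℝ, l = fun z => ε * max 0 (1 - ‖z - ψ w₁‖ / η) := ⟨_, rfl⟩
  have hlc : Continuous l := by
    rw [hl]
    fun_prop
  have hl0 : ∀ z, 0 ≤ l z := by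
    intro z
    rw [hl]
    exact mul_nonneg hε0.le (le_max_left _ _)
  have hl1 : ∀ z, l z ≤ ε := by
    intro z
    rw [hl]
    have : max 0 (1 - ‖z - ψ w₁‖ / η) ≤ 1 := by
      apply max_le zero_le_one
      have : 0 ≤ ‖z - ψ w₁‖ / η := by positivity
      linarith
    nlinarith
  have hlpos : 0 < l (ψ w₁) := by
    rw [hl]
    simp only [sub_self, norm_zero, zero_div, sub_zero]
    positivity
  have hlV : ∀ z, 0 < l z → ∃ w, Real.exp (2 * ε) < ‖w‖ ∧ ψ w = z := by
    intro z hz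
    apply hηV
    rw [mem_ball, dist_eq_norm]
    by_contra hcon
    have h3 : 1 ≤ ‖z - ψ w₁‖ / η := by
      rw [le_div_iff₀ hη]
      linarith [not_lt.1 hcon]
    have h4 : l z = 0 := by
      rw [hl]
      simp only
      rw [max_eq_left (by linarith), mul_zero]
    linarith
  have hli : CircleIntegrable l c₀ ρ := hlc.continuousOn.circleIntegrable hρ0.le
  obtain ⟨T, hT⟩ : ∃ T, T = circleAverage l c₀ ρ := ⟨_, rfl⟩
  have hT0 : 0 < T := by
    rw [hT, Real.circleAverage_def, smul_eq_mul]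
    refine mul_pos (by positivity) ?_
    have hcm : Continuous fun θ => l (circleMap c₀ ρ θ) := hlc.comp (continuous_circleMap c₀ ρ)
    apply intervalIntegral.integral_pos (by positivity) hcm.continuousOn (fun θ _ => hl0 _)
    have h3 : ψ w₁ ∈ sphere c₀ |ρ| := by rwa [abs_of_pos hρ0]
    rw [← image_circleMap_Ioc] at h3
    obtain ⟨θ, hθ, hθ2⟩ := h3
    exact ⟨θ, Ioc_subset_Icc_self hθ, by rw [hθ2]; exact hlpos⟩
  have hT1 : T ≤ ε := by
    rw [hT, avg_eq]
    have h3 : ∫ θ, l (circleMap c₀ ρ θ) ∂cm ≤ ∫ _ : ℝ, ε ∂cm :=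
      integral_mono (integrable_cont (hlc.comp (continuous_circleMap c₀ ρ)))
        (integrable_const _) fun θ => hl1 _
    simpa using h3
  have hTn : ∀ n, T + Real.log (sn n) ≤ circleAverage (UU β c₀ ρ) 0 (sn n) := by
    intro n
    have hs0 := sn_pos n
    have hs1 := sn_lt n
    have hlogs : Real.log (sn n) < 0 := Real.log_neg hs0 hs1
    rcases le_or_gt (-ε) (Real.log (sn n)) with h3 | h3
    · have h4 := lower_II hβ hc hρ0 hs0 hs1 hli (fun z hz => by
        by_cases hzM : z ∈ multibrotSet d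
        · rw [avg_mem hβ hzM hs0 hs1]
          by_contra hcon
          obtain ⟨w, hw1, hw2⟩ := hlV z (not_le.1 hcon)
          have h5 : ψ w ∈ ψ '' {z | 1 < ‖z‖} := by
            refine ⟨w, ?_, rfl⟩
            exact lt_of_le_of_lt (Real.one_le_exp (by positivity)) hw1
          rw [hψ.image, hw2] at h5
          exact h5 hzM
        · have h5 : z ∈ (multibrotSet d)ᶜ := hzM
          rw [← hψ.image] at h5
          obtain ⟨w, hw, rfl⟩ := h5
          have hw' : 1 < ‖w‖ := hw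
          have e1 := avg_ext hβ hw hs0 hs1
          rw [← exteriorMap_unique hβ hψ hw] at e1
          rw [e1]
          rcases (hl0 (ψ w)).eq_or_lt with h6 | h6
          · rw [← h6]
            exact Real.posLog_nonneg
          · obtain ⟨w', hw1, hw2⟩ := hlV _ h6
            have h7 : w' = w := hψ.inj
              (lt_of_le_of_lt (Real.one_le_exp (show 0 ≤ 2 * ε by positivity)) hw1) hw hw2
            subst h7
            have h8 : 2 * ε < Real.log ‖w'‖ := by
              rwa [Real.lt_log_iff_exp_lt (by linarith)]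
            have h9 : Real.log (sn n * ‖w'‖) ≤ posLog (sn n * ‖w'‖) := le_max_right _ _
            rw [Real.log_mul hs0.ne' (by linarith)] at h9
            have := hl1 (ψ w')
            linarith)
      rw [← hT] at h4
      linarith
    · have h4 : 0 ≤ circleAverage (UU β c₀ ρ) 0 (sn n) := by
        rw [avg_eq]
        exact integral_nonneg fun θ => UU_nonneg _ _ _
      linarith
  obtain ⟨δ, hδ, hδ2⟩ := green_cont hd2 hc (half_pos hT0)
  have hρ'0 : 0 < min δ (ρ / 2) := by positivity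
  have hρ'1 : min δ (ρ / 2) < ρ := (min_le_right _ _).trans_lt (by linarith)
  have hfin := le_vol_of hβ hψ (ae_land hd2 hψ) hc hρ'0 hρ'1 (show ρ < r by rw [hρ]; linarith)
    (half_pos hT0).le (fun w hw hwr => hδ2 ψ hψ w hw (hwr.trans (min_le_left _ _))) hTn
  by_contra hcon
  have h0 : (volume (Ang ψ c₀ r)).toReal = 0 :=
    le_antisymm (not_lt.1 hcon) ENNReal.toReal_nonneg
  rw [h0, mul_zero, zero_div] at hfin
  linarith

end Pool.Agent.U334.LW
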